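import Mathlib

/-!
# MP_7bafff_nt: Fibonacci and Lucas numbers as sums of at most two Ulam numbers

The Ulam numbers up to `6765` are encoded in the binary expansion of `bm`; `rv` is the reversed
expansion.  For `m ≤ 6765` the bits of `xx m` are the numbers `a < m - a` such that `a` and `m - a`
both have their bit set in `bm`.
-/

set_option autoImplicit false

namespace Pool.Agent.Results.MP_7bafff_nt.ZeitlinFails

/-- `u` is the Ulam sequence with initial values `1, 2`; the term `u k` is the `(k + 1)`-st term of
the sequence.  For `n ≥ 2`, `u n` is the least integer greater than `u (n - 1)` that can be written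
in exactly one way as `u i + u j` with `i < j < n`. -/
def IsUlamSeq (u : ℕ → ℕ) : Prop :=
  u 0 = 1 ∧ u 1 = 2 ∧ ∀ n, 2 ≤ n →
    IsLeast {m : ℕ | u (n - 1) < m ∧
      ∃! p : ℕ × ℕ, p.1 < p.2 ∧ p.2 < n ∧ m = u p.1 + u p.2} (u n)

/-- `m` is a term of `u` or a sum `u i + u j` with `i < j`. -/
def AtMostTwo (u : ℕ → ℕ) (m : ℕ) : Prop :=
  (∃ i, m = u i) ∨ ∃ i j, i < j ∧ m = u i + u j

/-- The Lucas numbers `L_0 = 2`, `L_1 = 1`, `L_(n+2) = L_(n+1) + L_n`. -/
def lucas : ℕ → ℕ
  | 0 => 2
  | 1 => 1
  | n + 2 => lucas (n + 1) + lucas n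

def bm : ℕ :=
  0x14800a000000000000000010000a0000000000040002800140000029000000000280000a00002800140400028000004005000000a40050000008000000001480000000000000050000140000400001480000000010000a4000290000000000000000000500000000005080014a0005200000240050002800000520000000000000000000a000028000000000010000a00000000000400028001400000290000000000000000000000001400000200000800050000148000520001400000000014000052000148000000000400001000280000a120029001400005000000a0000000000a0000290000a400000000000000000014000000000140000520000080000000014000052000148000500001400000000014800a0000000000040002800000000029001400005280000a0005000000240000000140000020000080000080000a00a500000024000200000000002000140000400000480004005010000040050000000400500000000000200014000000000148000500028000005080000a00002000142400520028000000000290000a0000000800a120001480000000280000a40002900000000000000020005000000a0000090000a40a0000000000002000008000028001420005200000a40a0000000000a000000000000000290000a000000000000000280014a000028000004005000000a000001000004005004000a50052000002120500001400000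20028000005200014000a000001400000200000800040000148000000001000000005280000000000000000400001000004000290000a4000000014000050000140000020001400005200000800050000000000520001400005000014000042000100000120028000004000010014a00000100140400000000024005080014200012000142400000029000005000280200010800148000029001000000000210000040000100008400029028000000200000a0000280000010002942940000008480000000200000800002002800000520028000001000014000a0000000800850050000008520021000004000090010a4000200014000050000140000420028000001080204a0005205004040040850002800109020000004020014200a50002802402020528000081204084004044a00842120422180501405295e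

def rv : ℕ :=
  0x1ea5280a028061108121084014880800840812040000528101009005000294010a00100800000102420005000284080080802812800148100420000005001080000a0000280000a000100009420024000080000210012840000028028400400000014000a000020000005001280000050010000040000100000000484000000a50a5000200000050000140000100000005025000084000200000800002100000000020025000004a00042000100500028000025000000090a0001200010a000428009000000000080a0020000014a00200000800000500120000020001080000a0000280000a00012800000000028000400001280000a0001000000a0000280000a00000000940002500008000020000080000000000000000528000000020000000004a000008000400001000000a0000014000a000128000005001000000a00002812100000128029400080280080000200000140000028008000005000014a00050000000000000001400025000000000000000140000000001409400001280010a000500000400001000000000000140940002400001400000280010000000000000002500009400005000000004a0001214004000000140002500000000005001280090a00010000140000428000005000280004a0000000000a000100000000000280080000002800800002028008000480000080000a0001000000000010000900000029401400004000004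00001000000a00000000900000028001400005280000a00250000000000500008000000000014004a0000000000a0000280004a0001280000a000000000400001280000a0000000000a000000000000000000094000250000140000000001400000280000a00250012140000500020000080000000004a0001280000a0000000000a0001280004a000028000400001000000a00000000000000000000000025000000a000500008000000000014000200000000000500001400000000000000000012800000500028009000001280014a000428000000000280000000000000000002500009400020000000004a0000080000a000028000000000000004a0000000004000002800940000028008000005000080a00050000140000500000000025000000a0005000080000000000140002000000000000000014004a000000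

def xx (m : ℕ) : ℕ := (bm &&& (rv >>> (6765 - m))) % Nat.pow 2 ((m + 1) / 2)

def one (x : ℕ) : Bool := x != 0 && (x &&& (x - 1)) == 0

theorem rev_chk : (List.range 6766).all (fun u => rv.testBit (6765 - u) == bm.testBit u) = true := by
  decide +kernel

theorem chk : (List.range 6766).all (fun m => bm.testBit m == (m == 1 || m == 2 ||
    (decide (3 ≤ m) && one (xx m)))) = true := by
  decide +kernel

theorem chk0 : xx 3571 = 0 ∧ xx 6765 = 0 ∧ bm.testBit 3571 = false ∧ bm.testBit 6765 = false := by
  decide +kernel


theorem rv_spec (u : ℕ) (hu : u ≤ 6765) : rv.testBit (6765 - u) = bm.testBit u := by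
  have h := List.all_eq_true.1 rev_chk u (List.mem_range.2 (by omega))
  simpa using h

theorem xx_bit {m a : ℕ} (hm : m ≤ 6765) : (xx m).testBit a = true ↔
    2 * a < m ∧ bm.testBit a = true ∧ bm.testBit (m - a) = true := by
  have e : xx m = (bm &&& (rv >>> (6765 - m))) % 2 ^ ((m + 1) / 2) := rfl
  rw [e, Nat.testBit_mod_two_pow, Nat.testBit_and, Nat.testBit_shiftRight]
  by_cases ha : 2 * a < m
  · have h1 : 6765 - m + a = 6765 - (m - a) := by omega
    have h2 : a < (m + 1) / 2 := by omega
    rw [h1, rv_spec (m - a) (by omega)]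
    simp [ha, h2]
  · have h2 : ¬ a < (m + 1) / 2 := by omega
    simp [ha, h2]

theorem one_iff (x : ℕ) : one x = true ↔ ∃ k, x = 2 ^ k := by
  have h := @Nat.ne_zero_and_sub_one_eq_zero_iff_isPowerOfTwo x
  unfold Nat.isPowerOfTwo at h
  rw [← h]
  unfold one
  simp

theorem bit_spec {m : ℕ} (hm : m ≤ 6765) : bm.testBit m = true ↔
    m = 1 ∨ m = 2 ∨ (3 ≤ m ∧ ∃ k, xx m = 2 ^ k) := by
  have h := List.all_eq_true.1 chk m (List.mem_range.2 (by omega))
  rw [beq_iff_eq] at h
  rw [h, ← one_iff]
  simp [or_assoc]

/-- The recursive characterisation of the set of values determines it up to `6765`. -/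
theorem mem_iff (S : Set ℕ) (hS : ∀ m, m ∈ S ↔ m = 1 ∨ m = 2 ∨ (3 ≤ m ∧
    ∃! p : ℕ × ℕ, p.1 ∈ S ∧ p.2 ∈ S ∧ p.1 < p.2 ∧ m = p.1 + p.2)) :
    ∀ m, m ≤ 6765 → (m ∈ S ↔ bm.testBit m = true) := by
  have h0 : 0 ∉ S := by
    rw [hS]; omega
  intro m
  induction m using Nat.strong_induction_on with
  | _ m ih =>
    intro hm
    rw [hS, bit_spec hm]
    refine or_congr Iff.rfl (or_congr Iff.rfl (and_congr_right fun h3 => ?_))
    have key : ∀ a b : ℕ, a + b = m → a < b →
        ((a ∈ S ∧ b ∈ S) ↔ (xx m).testBit a = true ∧ 0 < a) := by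
      intro a b hab hlt
      rw [xx_bit hm]
      have hb : m - a = b := by omega
      rw [hb]
      constructor
      · rintro ⟨ha, hb'⟩
        have ha0 : 0 < a := by
          rcases Nat.eq_zero_or_pos a with h | h
          · rw [h] at ha; exact absurd ha h0
          · exact h
        exact ⟨⟨by omega, (ih a (by omega) (by omega)).1 ha, (ih b (by omega) (by omega)).1 hb'⟩, ha0⟩
      · rintro ⟨⟨_, ha, hb'⟩, ha0⟩
        exact ⟨(ih a (by omega) (by omega)).2 ha, (ih b (by omega) (by omega)).2 hb'⟩
    have hz : (xx m).testBit 0 = false := by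
      by_contra hc
      have hc' : (xx m).testBit 0 = true := by simpa using hc
      have := ((xx_bit hm).1 hc').2.1
      have h0' : bm.testBit 0 = false := by decide +kernel
      rw [h0'] at this
      exact absurd this (by simp)
    constructor
    · rintro ⟨⟨a, b⟩, ⟨ha, hb, hlt, hab⟩, huniq⟩
      refine ⟨a, Nat.eq_of_testBit_eq fun i => ?_⟩
      rw [Nat.testBit_two_pow]
      by_cases hi : a = i
      · subst hi
        simpa using ((key a b hab.symm hlt).1 ⟨ha, hb⟩).1
      · have : ¬ (xx m).testBit i = true := by
          intro hc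
          have hc2 := (xx_bit hm).1 hc
          have hi0 : 0 < i := by
            rcases Nat.eq_zero_or_pos i with h | h
            · rw [h, hz] at hc; exact absurd hc (by simp)
            · exact h
          have h4 := (key i (m - i) (by omega) (by omega)).2 ⟨hc, hi0⟩
          have h5 := huniq (i, m - i) ⟨h4.1, h4.2, by simp only; omega, by simp only; omega⟩
          exact hi (congrArg Prod.fst h5).symm
        simp [hi, this]
    · rintro ⟨k, hk⟩
      have hbit : ∀ i, (xx m).testBit i = true ↔ k = i := by
        intro i
        rw [hk, Nat.testBit_two_pow]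
        simp
      have hk1 : (xx m).testBit k = true := (hbit k).2 rfl
      have hk2 := (xx_bit hm).1 hk1
      have hk0 : 0 < k := by
        rcases Nat.eq_zero_or_pos k with h | h
        · rw [h, hz] at hk1; exact absurd hk1 (by simp)
        · exact h
      have h4 := (key k (m - k) (by omega) (by omega)).2 ⟨hk1, hk0⟩
      refine ⟨(k, m - k), ⟨h4.1, h4.2, by simp only; omega, by simp only; omega⟩, ?_⟩
      rintro ⟨a, b⟩ ⟨ha, hb, hlt, hab⟩
      simp only at ha hb hlt hab
      have := (hbit a).1 ((key a b hab.symm hlt).1 ⟨ha, hb⟩).1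
      simp only [Prod.mk.injEq]
      omega

theorem strictMono_of {u : ℕ → ℕ} (h : IsUlamSeq u) : StrictMono u := by
  refine strictMono_nat_of_lt_succ fun n => ?_
  rcases Nat.eq_zero_or_pos n with rfl | hn
  · rw [h.1, h.2.1]; norm_num
  · have := (h.2.2 (n + 1) (by omega)).1.1
    simpa using this

theorem range_spec {u : ℕ → ℕ} (h : IsUlamSeq u) (m : ℕ) : m ∈ Set.range u ↔
    m = 1 ∨ m = 2 ∨ (3 ≤ m ∧ ∃! p : ℕ × ℕ, p.1 ∈ Set.range u ∧ p.2 ∈ Set.range u ∧
      p.1 < p.2 ∧ m = p.1 + p.2) := by
  have hm := strictMono_of h
  obtain ⟨h0, h1, h2⟩ := h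
  have pos : ∀ i, 1 ≤ u i := fun i => by
    have := hm.monotone (Nat.zero_le i); omega
  have conv : ∀ (n : ℕ), (∀ i, u i < m ↔ i < n) →
      ((∃! p : ℕ × ℕ, p.1 ∈ Set.range u ∧ p.2 ∈ Set.range u ∧ p.1 < p.2 ∧ m = p.1 + p.2) ↔
      (∃! p : ℕ × ℕ, p.1 < p.2 ∧ p.2 < n ∧ m = u p.1 + u p.2)) := by
    intro n hn
    constructor
    · rintro ⟨⟨a, b⟩, ⟨⟨i, hi⟩, ⟨j, hj⟩, hab, hs⟩, huniq⟩
      simp only at hi hj hab hs
      subst hi; subst hj
      refine ⟨(i, j), ⟨hm.lt_iff_lt.1 hab, (hn j).1 (by have := pos i; omega), hs⟩, ?_⟩
      rintro ⟨i', j'⟩ ⟨h3, h4, h5⟩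
      simp only at h3 h4 h5
      have := huniq (u i', u j') ⟨⟨i', rfl⟩, ⟨j', rfl⟩, hm h3, h5⟩
      simp only [Prod.mk.injEq] at this ⊢
      exact ⟨hm.injective this.1, hm.injective this.2⟩
    · rintro ⟨⟨i, j⟩, ⟨h3, h4, h5⟩, huniq⟩
      simp only at h3 h4 h5
      refine ⟨(u i, u j), ⟨⟨i, rfl⟩, ⟨j, rfl⟩, hm h3, h5⟩, ?_⟩
      rintro ⟨a, b⟩ ⟨⟨i', hi'⟩, ⟨j', hj'⟩, hab, hs⟩
      simp only at hi' hj' hab hs
      subst hi'; subst hj'
      have := huniq (i', j') ⟨hm.lt_iff_lt.1 hab, (hn j').1 (by have := pos i'; omega), hs⟩
      simp only [Prod.mk.injEq] at this ⊢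
      rw [this.1, this.2]
      exact ⟨rfl, rfl⟩
  constructor
  · rintro ⟨n, rfl⟩
    rcases Nat.lt_or_ge n 2 with hn | hn
    · interval_cases n
      · left; exact h0
      · right; left; exact h1
    · right; right
      have h3 : u 1 < u n := hm (by omega)
      refine ⟨by omega, ?_⟩
      rw [conv n (fun i => hm.lt_iff_lt)]
      exact (h2 n hn).1.2
  · rintro (rfl | rfl | ⟨h3, hex⟩)
    · exact ⟨0, h0⟩
    · exact ⟨1, h1⟩
    · have hex2 : ∃ n, m ≤ u n := ⟨m, hm.id_le m⟩
      classical
      obtain ⟨n, hn⟩ : ∃ n, n = Nat.find hex2 := ⟨_, rfl⟩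
      have hn1 : m ≤ u n := hn ▸ Nat.find_spec hex2
      have hn2 : ∀ i, i < n → u i < m := fun i hi => by
        have := Nat.find_min hex2 (hn ▸ hi)
        omega
      have hn3 : ∀ i, u i < m ↔ i < n := fun i => by
        refine ⟨fun hi => ?_, hn2 i⟩
        exact hm.lt_iff_lt.1 (lt_of_lt_of_le hi hn1)
      have hn4 : 2 ≤ n := by
        have := (hn3 1).1 (by omega)
        omega
      rw [conv n hn3] at hex
      have := (h2 n hn4).2 ⟨(hn3 (n - 1)).2 (by omega), hex⟩
      exact ⟨n, le_antisymm this hn1⟩

/-- The Ulam sequence. -/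
noncomputable def U : ℕ → ℕ
  | 0 => 1
  | 1 => 2
  | n + 2 => sInf {m : ℕ | U (n + 1) < m ∧
      ∃! p : Fin (n + 2) × Fin (n + 2), p.1 < p.2 ∧ m = U p.1 + U p.2}
termination_by n => n
decreasing_by
  · omega
  · exact p.1.2
  · exact p.2.2

theorem U_isUlamSeq : IsUlamSeq U := by
  have conv : ∀ n m : ℕ, (∃! p : Fin (n + 2) × Fin (n + 2), p.1 < p.2 ∧ m = U p.1 + U p.2) ↔
      ∃! p : ℕ × ℕ, p.1 < p.2 ∧ p.2 < n + 2 ∧ m = U p.1 + U p.2 := by
    intro n m
    constructor
    · rintro ⟨⟨i, j⟩, ⟨h1, h2⟩, h3⟩
      refine ⟨(i, j), ⟨h1, j.2, h2⟩, ?_⟩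
      rintro ⟨i', j'⟩ ⟨h4, h5, h6⟩
      simp only at h4 h5 h6
      have := h3 (⟨i', by omega⟩, ⟨j', h5⟩) ⟨h4, h6⟩
      simp only [Prod.mk.injEq] at this ⊢
      rw [← this.1, ← this.2]
      exact ⟨rfl, rfl⟩
    · rintro ⟨⟨i, j⟩, ⟨h1, h2, h3⟩, h4⟩
      simp only at h1 h2 h3
      refine ⟨(⟨i, by omega⟩, ⟨j, h2⟩), ⟨h1, h3⟩, ?_⟩
      rintro ⟨i', j'⟩ ⟨h5, h6⟩
      have := h4 (i', j') ⟨h5, j'.2, h6⟩
      simp only [Prod.mk.injEq] at this ⊢
      exact ⟨Fin.ext this.1, Fin.ext this.2⟩
  have hU : ∀ n, U (n + 2) = sInf {m : ℕ | U (n + 1) < m ∧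
      ∃! p : ℕ × ℕ, p.1 < p.2 ∧ p.2 < n + 2 ∧ m = U p.1 + U p.2} := by
    intro n
    rw [U]
    simp only [conv]
  -- by strong induction: the defining set is nonempty and the sequence increases
  have main : ∀ n, 1 ≤ n → (∀ i j, i < j → j ≤ n → U i < U j) := by
    intro n
    induction n with
    | zero => intro h; omega
    | succ n ih =>
      intro _
      rcases Nat.eq_zero_or_pos n with rfl | hn
      · intro i j hij hj
        obtain rfl : j = 1 := by omega
        obtain rfl : i = 0 := by omega
        have e0 : U 0 = 1 := by rw [U]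
        have e1 : U 1 = 2 := by rw [U]
        rw [e0, e1]; norm_num
      · obtain ⟨k, rfl⟩ : ∃ k, n = k + 1 := ⟨n - 1, by omega⟩
        have ih' := ih (by omega)
        have hne : (U k + U (k + 1)) ∈ {m : ℕ | U (k + 1) < m ∧
            ∃! p : ℕ × ℕ, p.1 < p.2 ∧ p.2 < k + 2 ∧ m = U p.1 + U p.2} := by
          have hpos : 0 < U k := by
            rcases Nat.eq_zero_or_pos k with rfl | hk
            · have e0 : U 0 = 1 := by rw [U]
              rw [e0]; norm_num
            · have := ih' 0 k hk (by omega)
              omega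
          refine ⟨by omega, (k, k + 1), ⟨by simp, by simp, rfl⟩, ?_⟩
          rintro ⟨i, j⟩ ⟨h1, h2, h3⟩
          simp only at h1 h2 h3
          rcases Nat.lt_or_ge j (k + 1) with hj | hj
          · exfalso
            have a1 := ih' j (k + 1) hj le_rfl
            have a2 : U i < U j := ih' i j h1 (by omega)
            have a3 : U j ≤ U k := by
              rcases Nat.lt_or_ge j k with h | h
              · exact (ih' j k h (by omega)).le
              · obtain rfl : j = k := by omega
                exact le_rfl
            omega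
          · obtain rfl : j = k + 1 := by omega
            rcases Nat.lt_or_ge i k with hi | hi
            · exfalso
              have a1 := ih' i k hi (by omega)
              omega
            · obtain rfl : i = k := by omega
              rfl
        have hlt : U (k + 1) < U (k + 2) := by
          have := Nat.sInf_mem ⟨_, hne⟩
          rw [← hU] at this
          exact this.1
        intro i j hij hj
        rcases Nat.lt_or_ge j (k + 2) with h | h
        · exact ih' i j hij (by omega)
        · obtain rfl : j = k + 2 := by omega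
          rcases Nat.lt_or_ge i (k + 1) with h' | h'
          · exact (ih' i (k + 1) h' le_rfl).trans hlt
          · obtain rfl : i = k + 1 := by omega
            exact hlt
  refine ⟨by rw [U], by rw [U], ?_⟩
  intro n hn
  obtain ⟨k, rfl⟩ : ∃ k, n = k + 2 := ⟨n - 2, by omega⟩
  have hmono := main (k + 1) (by omega)
  have hne : (U k + U (k + 1)) ∈ {m : ℕ | U (k + 1) < m ∧
      ∃! p : ℕ × ℕ, p.1 < p.2 ∧ p.2 < k + 2 ∧ m = U p.1 + U p.2} := by
    have hpos : 0 < U k := by
      rcases Nat.eq_zero_or_pos k with rfl | hk
      · have e0 : U 0 = 1 := by rw [U]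
        rw [e0]; norm_num
      · have := hmono 0 k hk (by omega)
        omega
    refine ⟨by omega, (k, k + 1), ⟨by simp, by simp, rfl⟩, ?_⟩
    rintro ⟨i, j⟩ ⟨h1, h2, h3⟩
    simp only at h1 h2 h3
    rcases Nat.lt_or_ge j (k + 1) with hj | hj
    · exfalso
      have a1 := hmono j (k + 1) hj le_rfl
      have a2 : U i < U j := hmono i j h1 (by omega)
      have a3 : U j ≤ U k := by
        rcases Nat.lt_or_ge j k with h | h
        · exact (hmono j k h (by omega)).le
        · obtain rfl : j = k := by omega
          exact le_rfl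
      omega
    · obtain rfl : j = k + 1 := by omega
      rcases Nat.lt_or_ge i k with hi | hi
      · exfalso
        have a1 := hmono i k hi (by omega)
        omega
      · obtain rfl : i = k := by omega
        rfl
  have e : k + 2 - 1 = k + 1 := by omega
  rw [e, hU]
  exact ⟨Nat.sInf_mem ⟨_, hne⟩, fun m hm => Nat.sInf_le hm⟩

theorem not_two {u : ℕ → ℕ} (h : IsUlamSeq u) {m : ℕ} (hm : m ≤ 6765) (hx : xx m = 0)
    (hb : bm.testBit m = false) : ¬ AtMostTwo u m := by
  have hsp := mem_iff (Set.range u) (range_spec h)
  have hmono := strictMono_of h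
  have pos : ∀ i, 1 ≤ u i := fun i => by
    have := hmono.monotone (Nat.zero_le i)
    have := h.1
    omega
  rintro (⟨i, hi⟩ | ⟨i, j, hij, hs⟩)
  · have := (hsp m hm).1 ⟨i, hi.symm⟩
    rw [hb] at this
    exact absurd this (by simp)
  · have h1 := hmono hij
    have h2 := pos i
    have hi := (hsp (u i) (by omega)).1 ⟨i, rfl⟩
    have hj := (hsp (u j) (by omega)).1 ⟨j, rfl⟩
    have h3 : (xx m).testBit (u i) = true := by
      rw [xx_bit hm]
      refine ⟨by omega, hi, ?_⟩
      have : m - u i = u j := by omega
      rw [this]; exact hj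
    rw [hx] at h3
    simp at h3

/-- The Ulam sequence exists; the Lucas number `L_17 = 3571` and the Fibonacci number
`F_20 = 6765` are neither Ulam numbers nor sums of two distinct Ulam numbers. -/
theorem result : (∃ u, IsUlamSeq u) ∧ ∀ u, IsUlamSeq u →
    (lucas 17 = 3571 ∧ ¬ AtMostTwo u (lucas 17)) ∧
    (Nat.fib 20 = 6765 ∧ ¬ AtMostTwo u (Nat.fib 20)) := by
  refine ⟨⟨U, U_isUlamSeq⟩, fun u hu => ?_⟩
  have e1 : lucas 17 = 3571 := by decide +kernel
  have e2 : Nat.fib 20 = 6765 := by decide +kernel
  refine ⟨⟨e1, ?_⟩, ⟨e2, ?_⟩⟩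
  · rw [e1]; exact not_two hu (by norm_num) chk0.1 chk0.2.2.1
  · rw [e2]; exact not_two hu (by norm_num) chk0.2.1 chk0.2.2.2

end Pool.Agent.Results.MP_7bafff_nt.ZeitlinFails
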